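import Pool.Agent.Helper69.MWF.KKG
import Pool.Agent.Helper23.MWF.Xor

/-!
# MP_80e84b_lc (S14965): modules SUB, D2, D3
-/

set_option autoImplicit false

open Topology Set Filter
open Nat.Partrec (Code)

namespace Pool.Agent.Helper19.MWF

open Pool.Agent.Helper95.MW Pool.Agent.Helper69.MWF

theorem hd1 : Primrec fun v : ℕ => v.unpair.1 := Primrec.fst.comp Primrec.unpair
theorem hd2 : Primrec fun v : ℕ => v.unpair.2 := Primrec.snd.comp Primrec.unpair

theorem tk_length (p : List ℕ) (s : ℕ) : (tk p s).length = s := by simp [tk]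

/-- a subtree of a c.e. tree is c.e. -/
theorem st_SUB (cec : ST_CEC) : ST_SUB := by
  obtain ⟨c1, -, c3, c4, c5, -, -, -⟩ := cec
  intro J y y' n n' w hn hy hS
  -- codes of pairs
  have hP : PrimrecPred fun v : ℕ => n' ≤ (dl v.unpair.2).length ∧
      tk (dl v.unpair.2) n' = ini y' n' ∧ (dl v.unpair.1).length ≤ (dl v.unpair.2).length ∧
      v.unpair.1 = ec (tk (dl v.unpair.2) (dl v.unpair.1).length) := by
    have h2 : Primrec fun v : ℕ => dl v.unpair.2 := primrec_dl.comp hd2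
    have h1 : Primrec fun v : ℕ => dl v.unpair.1 := primrec_dl.comp hd1
    refine PrimrecPred.and ?_ (PrimrecPred.and ?_ (PrimrecPred.and ?_ ?_))
    · exact PrimrecRel.comp Primrec.nat_le (Primrec.const n') (Primrec.list_length.comp h2)
    · exact PrimrecRel.comp Primrec.eq (primrec_tk.comp h2 (Primrec.const n')) (Primrec.const _)
    · exact PrimrecRel.comp Primrec.nat_le (Primrec.list_length.comp h1)
        (Primrec.list_length.comp h2)
    · exact PrimrecRel.comp Primrec.eq hd1 (primrec_ec.comp (primrec_tk.comp h2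
        (Primrec.list_length.comp h1)))
  have h1 := c3 (SS J y n) w (fun v => v.unpair.2) hS (le_primrec hd2)
  have h2 := c4 _ w (c1 _ _ w h1 (c5 _ w hP))
  have e : {m | ∃ k, Nat.pair m k ∈ {v : ℕ | v.unpair.2 ∈ SS J y n} ∩
      {v : ℕ | n' ≤ (dl v.unpair.2).length ∧
      tk (dl v.unpair.2) n' = ini y' n' ∧ (dl v.unpair.1).length ≤ (dl v.unpair.2).length ∧
      v.unpair.1 = ec (tk (dl v.unpair.2) (dl v.unpair.1).length)}} = SS J y' n' := by
    ext m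
    simp only [mem_inter_iff, Set.mem_ofPred_eq, Nat.unpair_pair, SS]
    constructor
    · rintro ⟨k, ⟨y3, hy3, -, t, rfl⟩, h3, h4, h5, h6⟩
      rw [dl_ec] at h3 h4 h5 h6
      rw [ini_length] at h3 h5
      rw [tk_ini h3] at h4
      rw [tk_ini h5] at h6
      exact ⟨y3, hy3, mem_Cy_iff.2 h4, _, h6⟩
    · rintro ⟨y3, hy3, h3, t, rfl⟩
      refine ⟨ec (ini y3 (max t n')), ⟨y3, hy3, ?_, _, rfl⟩, ?_⟩
      · exact mem_Cy_trans hy (Cy_mono hn h3)
      · rw [dl_ec, dl_ec, ini_length, ini_length, tk_ini (le_max_right _ _),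
          tk_ini (le_max_left _ _)]
        exact ⟨le_max_right _ _, mem_Cy_iff.1 h3, le_max_left _ _, rfl⟩
  rw [← e]
  exact h2

/-- the union of the finite approximations of `WC c` over a c.e. set of strings -/
theorem ceIn_union (cec : ST_CEC) (c : Code) (S : Set ℕ) (w : ℕ → ℕ) (hS : CEIn S w) :
    CEIn {m | ∃ p : List ℕ, ec p ∈ S ∧ ∃ s ≤ p.length,
      (c.eval (Nat.pair m (ec (tk p s)))).Dom} w := by
  obtain ⟨c1, -, c3, c4, c5, -, -, c8⟩ := cec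
  -- `v = ⟨m, ⟨ec p, s⟩⟩`
  have hp : Primrec fun v : ℕ => v.unpair.2.unpair.1 := hd1.comp hd2
  have hs : Primrec fun v : ℕ => v.unpair.2.unpair.2 := hd2.comp hd2
  have hf : Primrec fun v : ℕ => Nat.pair v.unpair.1
      (ec (tk (dl v.unpair.2.unpair.1) v.unpair.2.unpair.2)) :=
    Primrec₂.natPair.comp hd1 (primrec_ec.comp (primrec_tk.comp (primrec_dl.comp hp) hs))
  have hP : PrimrecPred fun v : ℕ => v.unpair.2.unpair.2 ≤ (dl v.unpair.2.unpair.1).length ∧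
      ec (dl v.unpair.2.unpair.1) = v.unpair.2.unpair.1 := by
    refine PrimrecPred.and ?_ ?_
    · exact PrimrecRel.comp Primrec.nat_le hs (Primrec.list_length.comp (primrec_dl.comp hp))
    · exact PrimrecRel.comp Primrec.eq (primrec_ec.comp (primrec_dl.comp hp)) hp
  have h1 := c3 S w (fun v => v.unpair.2.unpair.1) hS (le_primrec hp)
  have h2 := c3 _ w _ (c8 c w) (le_primrec hf)
  have h3 := c4 _ w (c1 _ _ w (c1 _ _ w h1 (c5 _ w hP)) h2)
  have e : {m | ∃ k, Nat.pair m k ∈ ({v : ℕ | v.unpair.2.unpair.1 ∈ S} ∩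
      {v : ℕ | v.unpair.2.unpair.2 ≤ (dl v.unpair.2.unpair.1).length ∧
      ec (dl v.unpair.2.unpair.1) = v.unpair.2.unpair.1}) ∩
      {v : ℕ | Nat.pair v.unpair.1 (ec (tk (dl v.unpair.2.unpair.1) v.unpair.2.unpair.2)) ∈
        {m | (c.eval m).Dom}}} = {m | ∃ p : List ℕ, ec p ∈ S ∧ ∃ s ≤ p.length,
      (c.eval (Nat.pair m (ec (tk p s)))).Dom} := by
    ext m
    simp only [mem_inter_iff, Set.mem_ofPred_eq, Nat.unpair_pair]
    constructor
    · rintro ⟨k, ⟨h4, h5, h6⟩, h7⟩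
      refine ⟨dl k.unpair.1, ?_, k.unpair.2, h5, h7⟩
      rw [h6]
      exact h4
    · rintro ⟨p, h4, s, h5, h6⟩
      refine ⟨Nat.pair (ec p) s, ?_⟩
      simp only [Nat.unpair_pair, dl_ec]
      exact ⟨⟨h4, h5, trivial⟩, h6⟩
  rw [← e]
  exact h3

theorem measurable_pt {f : (ℕ → ℕ) × (ℕ → ℕ) → (ℕ → ℕ)}
    (h : ∀ n, Measurable fun p => f p n) : Measurable f := measurable_pi_iff.2 h

theorem measurable_nat_comp {α : Type*} [MeasurableSpace α] {f : α → ℕ} (g : ℕ → ℕ)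
    (hf : Measurable f) : Measurable fun x => g (f x) := (measurable_from_nat (f := g)).comp hf

theorem measurable_nat_comp2 {α : Type*} [MeasurableSpace α] {f f' : α → ℕ} (g : ℕ → ℕ → ℕ)
    (hf : Measurable f) (hf' : Measurable f') : Measurable fun x => g (f x) (f' x) :=
  (measurable_from_prod_countable_left (f := fun p : ℕ × ℕ => g p.1 p.2)
    fun _ => measurable_from_nat).comp (hf.prodMk hf')

theorem measurable_xr (e : ℕ → ℕ) :
    Measurable fun p : (ℕ → ℕ) × (ℕ → ℕ) => xr p.1 (e ∘ p.2) := by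
  refine measurable_pt fun n => ?_
  have h1 : Measurable fun p : (ℕ → ℕ) × (ℕ → ℕ) => p.1 n :=
    (measurable_pi_apply n).comp measurable_fst
  have h2 : Measurable fun p : (ℕ → ℕ) × (ℕ → ℕ) => p.2 n :=
    (measurable_pi_apply n).comp measurable_snd
  exact measurable_nat_comp2 (fun a b => a ^^^ e b) h1 h2

theorem measurable_jn {f g : (ℕ → ℕ) × (ℕ → ℕ) → (ℕ → ℕ)} (hf : Measurable f)
    (hg : Measurable g) : Measurable fun p => jn (f p) (g p) := by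
  refine measurable_pt fun n => ?_
  exact measurable_nat_comp2 Nat.pair ((measurable_pi_apply n).comp hf)
    ((measurable_pi_apply n).comp hg)

/-- the map `(k, g) ↦ jn (F k) (F (k xor e ∘ g))` -/
def KF (F : (ℕ → ℕ) → (ℕ → ℕ)) (e : ℕ → ℕ) (p : (ℕ → ℕ) × (ℕ → ℕ)) : ℕ → ℕ :=
  jn (F p.1) (F (xr p.1 (e ∘ p.2)))

theorem measurable_KF {F : (ℕ → ℕ) → (ℕ → ℕ)} (hF : Measurable F) (e : ℕ → ℕ) :
    Measurable (KF F e) :=
  measurable_jn (hF.comp measurable_fst) (hF.comp (measurable_xr e))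

theorem st_D2 (cec : ST_CEC) (d1 : ST_D1) (uni2 : ST_UNI2) (borwc : ST_BORWC) (kk : ST_KK) :
    ST_D2 := by
  classical
  intro π F G hπ hR A hA y1 hy1 n1 y2 hy2 n2
  obtain ⟨e, he⟩ := (Set.to_countable A).exists_eq_range hA
  obtain ⟨kk1, kk2, kk3, kk4⟩ := kk A F π G hR e he.symm
  set J := JJ A G F with hJ
  -- the pairs `(q, j)`
  let I : Type := {σ : List ℕ // n2 ≤ σ.length ∧ ∃ y' ∈ J, y' ∈ Cy y2 n2 ∧ ini y' σ.length = σ} ×
    Code
  let P : I → Set ((ℕ → ℕ) × (ℕ → ℕ)) := fun i => {p | SS J (xf i.1.1) i.1.1.length =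
    WC i.2 (KF F e p)}
  have hPm : ∀ i, MeasurableSet (P i) := fun i => (borwc _ _).preimage (measurable_KF hR.meas e)
  have hPc : ∀ᶠ p in residual ((ℕ → ℕ) × (ℕ → ℕ)), ∃ i, p ∈ P i := by
    filter_upwards [kk1, kk2] with p hp1 hp2
    have hce : CEIn A (jn p.1 (xr p.1 (e ∘ p.2))) := by
      obtain ⟨-, -, -, -, -, -, c7, -⟩ := cec
      rw [← hp2]
      have h1 : LE (e ∘ p.2) (jn p.1 (xr p.1 (e ∘ p.2))) := by
        have h2 := Pool.Agent.Helper23.MWF.xr_le_jn p.1 (xr p.1 (e ∘ p.2))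
        rwa [xr_xr'] at h2
      exact c7 _ _ h1
    obtain ⟨y', hy', n', hn', hy'2, hce'⟩ := d1 π F G hπ hR A _ hA hce y2 hy2 n2
    have h5 : LE (π (jn p.1 (xr p.1 (e ∘ p.2)))) (KF F e p) := by
      refine (pi_jn hπ _ _).1.trans (jn_mono ?_ ?_)
      · exact (hR.te _ hp1.1).2
      · exact (hR.te _ hp1.2.1).2
    obtain ⟨c, hc⟩ := ceIn_iff.1 (hce'.mono h5)
    refine ⟨(⟨ini y' n', ?_, y', hy', hy'2, ?_⟩, c), ?_⟩
    · rw [ini_length]; exact hn'
    · rw [ini_length]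
    · change SS J (xf (ini y' n')) (ini y' n').length = WC c (KF F e p)
      rw [← hc, ini_length]
      unfold SS
      have h6 : Cy (xf (ini y' n')) n' = Cy y' n' := Cy_congr fun i hi => xf_ini_agree y' n' i hi
      rw [h6]
  -- a box over `y1`
  obtain ⟨⟨k1, k2⟩, hk12, rfl⟩ := hy1
  obtain ⟨g, rfl, m, hm⟩ := kk3 k1 k2 hk12 n1
  obtain ⟨⟨σ, c⟩, f', g', n', hn', hf', hg', hbox⟩ := uni2 I P hPm hPc k1 g m
  obtain ⟨hσ1, y', hy', hy'2, hσ2⟩ := σ.2
  -- a generic point in the box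
  obtain ⟨q, ⟨hq1, hq2⟩, hqf, hqg⟩ := exists_of_residual2' (kk1.and hbox) f' g' n' n'
  have hy : KF F e q ∈ J := ⟨_, hq1, rfl⟩
  obtain ⟨m', hm'⟩ := kk4 q.1 q.2 hq1 n'
  refine ⟨KF F e q, hy, max n1 m', le_max_left _ _, ?_, y', hy', σ.1.length, hσ1, hy'2, ?_⟩
  · exact hm q.1 q.2 (mem_Cy_trans hf' (Cy_mono hn' hqf)) (mem_Cy_trans hg' (Cy_mono hn' hqg)) hq1
  intro y3 hy3 n3 hn3 hy3q w hw
  have hB : SS J y' σ.1.length = SS J (xf σ.1) σ.1.length := by
    unfold SS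
    have h6 : Cy (xf σ.1) σ.1.length = Cy y' σ.1.length := by
      refine Cy_congr (mem_Cy_iff.2 ?_)
      rw [hσ2]
      exact xf_mem_cyl σ.1
    rw [h6]
  rw [hB]
  -- perturbation into the generic part of the box
  have hpert : ∀ y4 ∈ J, y4 ∈ Cy y3 n3 → ∀ t, ∃ p, (p.1, xr p.1 (e ∘ p.2)) ∈ KK A G ∧ p ∈ P (σ, c) ∧
      KF F e p ∈ Cy y4 t := by
    rintro y4 ⟨⟨a, b⟩, hab, rfl⟩ hy4 t
    have h7 : jn (F a) (F b) ∈ Cy (KF F e q) m' :=
      mem_Cy_trans (Cy_mono (le_max_right n1 m') hy3q)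
        (Cy_mono ((le_max_right n1 m').trans hn3) hy4)
    obtain ⟨g'', h8, h9, h10⟩ := hm' a b hab h7
    subst h10
    obtain ⟨m2, hm2⟩ := kkg hR e a g'' hab t
    obtain ⟨p, ⟨hp1, hp2⟩, hpa, hpg⟩ := exists_of_residual2' (kk1.and hbox) a g''
      (max m2 n') (max m2 n')
    refine ⟨p, hp1, hp2 ?_ ?_, hm2 p.1 p.2 (Cy_mono (le_max_left _ _) hpa)
      (Cy_mono (le_max_left _ _) hpg) hp1⟩
    · exact mem_Cy_trans (mem_Cy_trans hqf h9) (Cy_mono (le_max_right _ _) hpa)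
    · exact mem_Cy_trans (mem_Cy_trans hqg h8) (Cy_mono (le_max_right _ _) hpg)
  have e1 : SS J (xf σ.1) σ.1.length = {m | ∃ p : List ℕ, ec p ∈ SS J y3 n3 ∧ ∃ s ≤ p.length,
      (c.eval (Nat.pair m (ec (tk p s)))).Dom} := by
    ext x
    constructor
    · intro hx
      obtain ⟨p, hp1, hp2, hp3⟩ := hpert y3 hy3 (mem_Cy_self _ _) n3
      have h8 : x ∈ WC c (KF F e p) := by
        have h9 : SS J (xf σ.1) σ.1.length = WC c (KF F e p) := hp2
        rw [← h9]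
        exact hx
      obtain ⟨s, hs⟩ := h8
      refine ⟨ini (KF F e p) (max s n3), ⟨KF F e p, ⟨_, hp1, rfl⟩, hp3, _, rfl⟩, s, ?_, ?_⟩
      · rw [ini_length]; exact le_max_left _ _
      · rw [tk_ini (le_max_left _ _)]
        exact hs
    · rintro ⟨p, ⟨y4, hy4, hy43, t, ht⟩, s, hs, hx⟩
      have hpt : p = ini y4 t := ec_inj ht
      subst hpt
      rw [ini_length] at hs
      rw [tk_ini hs] at hx
      obtain ⟨r, hr1, hr2, hr3⟩ := hpert y4 hy4 hy43 t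
      have h9 : SS J (xf σ.1) σ.1.length = WC c (KF F e r) := hr2
      rw [h9]
      refine ⟨s, ?_⟩
      rw [mem_Cy_iff.1 (Cy_mono hs hr3)]
      exact hx
  rw [e1]
  exact ceIn_union cec c _ w hw

theorem st_D3 (kk : ST_KK) (sub : ST_SUB) (d2 : ST_D2) : ST_D3 := by
  intro π F G hπ hR A hA
  obtain ⟨e, he⟩ := (Set.to_countable A).exists_eq_range hA
  obtain ⟨kk1, -, -, -⟩ := kk A F π G hR e he.symm
  obtain ⟨q, hq, -, -⟩ := exists_of_residual2' kk1 (fun _ => 0) (fun _ => 0) 0 0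
  have hy0 : jn (F q.1) (F (xr q.1 (e ∘ q.2))) ∈ JJ A G F := ⟨_, hq, rfl⟩
  obtain ⟨ya, hya, na, -, -, yb, hyb, nb, -, -, hab⟩ := d2 π F G hπ hR A hA _ hy0 0 _ hy0 0
  obtain ⟨yc, hyc, nc, hnc, hyc2, yd, hyd, nd, hnd, hyd2, hcd⟩ :=
    d2 π F G hπ hR A hA yb hyb nb ya hya na
  refine ⟨yc, hyc, nc, fun y'' hy'' n'' hn'' hy2 w hw => ?_⟩
  have h1 := hcd y'' hy'' n'' hn'' hy2 w hw
  have h2 := hab yd hyd nd hnd hyd2 w h1
  exact sub _ _ _ _ _ w hnc hyc2 h2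

end Pool.Agent.Helper19.MWF
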