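import Pool.Agent.Helper19.MWF.Rec19

/-!
# The theorem of Posner and Robinson for relative enumerability
-/

set_option autoImplicit false

namespace Pool.Agent.Helper19.MWF

open Nat.Partrec Pool.Agent.Helper95.MW

theorem ev_mono {c : Code} {t t' m : ℕ} (h : t ≤ t') (he : ev c t m = true) :
    ev c t' m = true := by
  obtain ⟨x, hx⟩ := Option.isSome_iff_exists.1 he
  exact Option.isSome_iff_exists.2 ⟨x, Code.evaln_mono h hx⟩

/-- the code which is treated at the stage of `δ` -/
def cd (δ : List ℕ) : Code := Denumerable.ofNat Code δ.length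

/-- evidence, bounded -/
def Ev (δ : List ℕ) (f : ℕ → ℕ) (l : ℕ) : Prop :=
  ∃ s < l + 1, ev (cd δ) l (Nat.pair (ec (δ ++ [0])) (ec (ini f s))) = true

theorem Ev.congr {δ : List ℕ} {f g : ℕ → ℕ} {l : ℕ} (h : ∀ i < l, f i = g i) (hf : Ev δ f l) :
    Ev δ g l := by
  obtain ⟨s, hs, h1⟩ := hf
  refine ⟨s, hs, ?_⟩
  rwa [ini_eq_of_agree (g := f) (fun i hi => (h i (by omega)).symm)]

theorem exists_Ev {δ : List ℕ} {f : ℕ → ℕ} (p : ℕ) (h : ec (δ ++ [0]) ∈ WC (cd δ) f) :
    ∃ l, p < l ∧ Ev δ f l := by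
  obtain ⟨s, hs⟩ := h
  obtain ⟨t, ht⟩ := (dom_iff_ev _ _).1 hs
  exact ⟨s + t + p + 1, by omega, s, by omega, ev_mono (by omega) ht⟩

theorem Ev.mem {δ : List ℕ} {f : ℕ → ℕ} {l : ℕ} (h : Ev δ f l) : ec (δ ++ [0]) ∈ WC (cd δ) f := by
  obtain ⟨s, -, h1⟩ := h
  exact ⟨s, (dom_iff_ev _ _).2 ⟨l, h1⟩⟩

/-- the values at `p` which give evidence -/
def WW (δ : List ℕ) (w x : ℕ → ℕ) (p : ℕ) : Set ℕ :=
  {a | ∃ x' : ℕ → ℕ, (∀ i < p, x' i = x i) ∧ x' p = a ∧ ec (δ ++ [0]) ∈ WC (cd δ) (jn w x')}

theorem ceIn_WW (δ : List ℕ) (w x : ℕ → ℕ) (p : ℕ) : CEIn (WW δ w x p) w := by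
  have h := ceIn_search (α := List ℕ × ℕ × ℕ)
    (fun v => (ev (cd δ) v.2.1.2.2 (Nat.pair (ec (δ ++ [0])) (ec (zp v.2.2 v.2.1.1 v.2.1.2.1)))) &&
      (decide (tk v.2.1.1 p = ini x p) && decide (v.2.1.1.getD p 0 = v.1)))
    (by
      refine Primrec.and.comp ?_ (Primrec.and.comp ?_ ?_)
      · refine (primrec_ev (cd δ)).comp ?_ ?_
        · exact Primrec.snd.comp (Primrec.snd.comp (Primrec.fst.comp Primrec.snd))
        · refine Primrec₂.natPair.comp (Primrec.const _) (primrec_ec.comp ?_)
          refine primrec_zp.comp (Primrec.pair (Primrec.pair ?_ ?_) ?_)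
          · exact Primrec.snd.comp Primrec.snd
          · exact Primrec.fst.comp (Primrec.fst.comp Primrec.snd)
          · exact Primrec.fst.comp (Primrec.snd.comp (Primrec.fst.comp Primrec.snd))
      · refine (PrimrecRel.decide Primrec.eq).comp ?_ (Primrec.const (ini x p))
        exact primrec_tk.comp (Primrec.fst.comp (Primrec.fst.comp Primrec.snd))
          (Primrec.const _)
      · refine (PrimrecRel.decide Primrec.eq).comp ?_ Primrec.fst
        exact (Primrec.list_getD 0).comp (Primrec.fst.comp (Primrec.fst.comp Primrec.snd))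
          (Primrec.const _))
    (fun T => T.2.1) (Primrec.fst.comp Primrec.snd) w
  have e : {n | ∃ T : List ℕ × ℕ × ℕ, ((ev (cd δ) T.2.2 (Nat.pair (ec (δ ++ [0]))
      (ec (zp (ini w T.2.1) T.1 T.2.1)))) && (decide (tk T.1 p = ini x p) &&
        decide (T.1.getD p 0 = n))) = true} = WW δ w x p := by
    ext n
    constructor
    · rintro ⟨⟨l, s, t⟩, h1⟩
      simp only [Bool.and_eq_true, decide_eq_true_eq] at h1
      refine ⟨xf l, ?_, h1.2.2, s, (dom_iff_ev _ _).2 ⟨t, ?_⟩⟩
      · exact agree_of_ini_eq ((ini_xf l p).trans h1.2.1)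
      · rw [← ini_jn_xf]
        exact h1.1
    · rintro ⟨x', hx, hp, s, hs⟩
      obtain ⟨t, ht⟩ := (dom_iff_ev _ _).1 hs
      refine ⟨(ini x' (max s (p + 1)), s, t), ?_⟩
      simp only [Bool.and_eq_true, decide_eq_true_eq]
      rw [ini_jn w x' s s (max s (p + 1)) le_rfl (le_max_left _ _),
        tk_ini (le_trans (Nat.le_succ p) (le_max_right _ _))]
      refine ⟨ht, ini_eq_of_agree hx, ?_⟩
      rw [← hp]
      exact xf_ini_agree x' (max s (p + 1)) p (lt_of_lt_of_le (Nat.lt_succ_self p)
        (le_max_right _ _))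
  rw [← e]
  exact h

/-- one step of the construction -/
def Step (A : Set ℕ) (w : ℕ → ℕ) (a b : (ℕ → ℕ) × ℕ × List ℕ) : Prop :=
  (∀ i < a.2.1, b.1 i = a.1 i) ∧ a.2.1 < b.2.1 ∧
  ((b.1 a.2.1 ∈ A ∧ b.2.1 = a.2.1 + 1 ∧ b.2.2 = a.2.2 ++ [0] ∧
      ∀ x : ℕ → ℕ, (∀ i < a.2.1 + 1, x i = b.1 i) → ec (a.2.2 ++ [0]) ∉ WC (cd a.2.2) (jn w x)) ∨
    (b.1 a.2.1 ∉ A ∧ b.2.2 = a.2.2 ++ [1] ∧ Ev a.2.2 (jn w b.1) b.2.1 ∧
      ∀ l, a.2.1 < l → l < b.2.1 → ¬ Ev a.2.2 (jn w b.1) l))

theorem exists_step {A : Set ℕ} {w : ℕ → ℕ} (hA : ¬ CEIn A w) (a : (ℕ → ℕ) × ℕ × List ℕ) :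
    ∃ b, Step A w a b := by
  classical
  obtain ⟨x, p, δ⟩ := a
  have h1 : A ≠ WW δ w x p := fun h => hA (h ▸ ceIn_WW δ w x p)
  obtain ⟨n, hn⟩ : ∃ n, ¬ (n ∈ A ↔ n ∈ WW δ w x p) := by
    by_contra hc
    push Not at hc
    exact h1 (Set.ext hc)
  by_cases hnA : n ∈ A
  · have hnW : n ∉ WW δ w x p := fun h => hn ⟨fun _ => h, fun _ => hnA⟩
    refine ⟨(Function.update x p n, p + 1, δ ++ [0]), ?_, Nat.lt_succ_self p, Or.inl ⟨?_, rfl, rfl,
      ?_⟩⟩
    · intro i hi
      exact Function.update_of_ne (ne_of_lt hi) _ _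
    · simpa using hnA
    · intro x' hx' hmem
      refine hnW ⟨x', ?_, ?_, hmem⟩
      · intro i hi
        have := hx' i (Nat.lt_succ_of_lt hi)
        rw [this]
        exact Function.update_of_ne (ne_of_lt hi) _ _
      · have := hx' p (Nat.lt_succ_self p)
        rw [this]
        simp
  · have hnW : n ∈ WW δ w x p := by
      by_contra hc
      exact hn ⟨fun h => absurd h hnA, fun h => absurd h hc⟩
    obtain ⟨x', hx1, hx2, hx3⟩ := hnW
    have hex := exists_Ev p hx3
    refine ⟨(x', Nat.find hex, δ ++ [1]), hx1, (Nat.find_spec hex).1, Or.inr ⟨?_, rfl,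
      (Nat.find_spec hex).2, ?_⟩⟩
    · change x' p ∉ A
      rwa [hx2]
    · intro l hl1 hl2 hl3
      exact Nat.find_min hex hl2 ⟨hl1, hl3⟩

/-! ### the decision procedure -/

/-- `a` is enumerated in `WC cA y` -/
def Q1 (cA : Code) (v : ℕ × ℕ × List ℕ) : Prop :=
  ∃ s < v.2.1 + 1, ev cA v.2.1 (Nat.pair (v.2.2.getD v.1.unpair.1 0).unpair.2.unpair.2
    (ec ((List.range s).map (fun i => (v.2.2.getD i 0).unpair.1)))) = true

/-- evidence -/
def Q2 (v : ℕ × ℕ × List ℕ) : Prop :=
  ∃ s < v.2.1 + 1, ev (cd (dl v.1.unpair.2)) v.2.1 (Nat.pair (ec (dl v.1.unpair.2 ++ [0]))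
    (ec ((List.range s).map (fun i => (v.2.2.getD i 0).unpair.2)))) = true

theorem primrec_ev2 : Primrec fun v : (Code × ℕ) × ℕ => ev v.1.1 v.1.2 v.2 := by
  have h2 : Primrec fun a : (Code × ℕ) × ℕ => Code.evaln a.1.2 a.1.1 a.2 :=
    Code.primrec_evaln.comp (Primrec.pair (Primrec.pair (Primrec.snd.comp Primrec.fst)
      (Primrec.fst.comp Primrec.fst)) Primrec.snd)
  exact Primrec.option_isSome.comp h2

theorem primrec_Q1 (cA : Code) : PrimrecPred (Q1 cA) := by
  have hR : PrimrecRel fun (s : ℕ) (v : ℕ × ℕ × List ℕ) =>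
      ev cA v.2.1 (Nat.pair (v.2.2.getD v.1.unpair.1 0).unpair.2.unpair.2
        (ec ((List.range s).map (fun i => (v.2.2.getD i 0).unpair.1)))) = true := by
    refine Primrec.eq.comp ?_ (Primrec.const true)
    refine (primrec_ev cA).comp ?_ ?_
    · exact Primrec.fst.comp (Primrec.snd.comp Primrec.snd)
    · refine Primrec₂.natPair.comp ?_ (primrec_ec.comp ?_)
      · refine Primrec.snd.comp (Primrec.unpair.comp (Primrec.snd.comp (Primrec.unpair.comp ?_)))
        exact (Primrec.list_getD 0).comp (Primrec.snd.comp (Primrec.snd.comp Primrec.snd))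
          (Primrec.fst.comp (Primrec.unpair.comp (Primrec.fst.comp Primrec.snd)))
      · refine Primrec.list_map (Primrec.list_range.comp Primrec.fst) ?_
        refine Primrec.fst.comp (Primrec.unpair.comp ?_)
        exact (Primrec.list_getD 0).comp (Primrec.snd.comp (Primrec.snd.comp (Primrec.snd.comp
          Primrec.fst))) Primrec.snd
  have hf : Primrec fun v : ℕ × ℕ × List ℕ => List.range (v.2.1 + 1) :=
    Primrec.list_range.comp (Primrec.succ.comp (Primrec.fst.comp Primrec.snd))
  refine (PrimrecRel.comp hR.exists_mem_list hf Primrec.id).of_eq fun v => ?_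
  simp only [List.mem_range]
  rfl

theorem primrec_Q2 : PrimrecPred Q2 := by
  have hδ : Primrec fun v : ℕ × ℕ × ℕ × List ℕ => dl v.2.1.unpair.2 :=
    primrec_dl.comp (Primrec.snd.comp (Primrec.unpair.comp (Primrec.fst.comp Primrec.snd)))
  have hR : PrimrecRel fun (s : ℕ) (v : ℕ × ℕ × List ℕ) =>
      ev (cd (dl v.1.unpair.2)) v.2.1 (Nat.pair (ec (dl v.1.unpair.2 ++ [0]))
        (ec ((List.range s).map (fun i => (v.2.2.getD i 0).unpair.2)))) = true := by
    refine Primrec.eq.comp ?_ (Primrec.const true)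
    refine primrec_ev2.comp (Primrec.pair (Primrec.pair ?_ ?_) ?_)
    · exact (Primrec.ofNat Code).comp (Primrec.list_length.comp hδ)
    · exact Primrec.fst.comp (Primrec.snd.comp Primrec.snd)
    · refine Primrec₂.natPair.comp (primrec_ec.comp ?_) (primrec_ec.comp ?_)
      · exact Primrec.list_append.comp hδ (Primrec.const [0])
      · refine Primrec.list_map (Primrec.list_range.comp Primrec.fst) ?_
        refine Primrec.snd.comp (Primrec.unpair.comp ?_)
        exact (Primrec.list_getD 0).comp (Primrec.snd.comp (Primrec.snd.comp (Primrec.snd.comp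
          Primrec.fst))) Primrec.snd
  have hf : Primrec fun v : ℕ × ℕ × List ℕ => List.range (v.2.1 + 1) :=
    Primrec.list_range.comp (Primrec.succ.comp (Primrec.fst.comp Primrec.snd))
  refine (PrimrecRel.comp hR.exists_mem_list hf Primrec.id).of_eq fun v => ?_
  simp only [List.mem_range]
  rfl

theorem map_ini_fst (y c : ℕ → ℕ) (m s : ℕ) (h : s ≤ m) :
    (List.range s).map (fun i => ((ini (jn y c) m).getD i 0).unpair.1) = ini y s := by
  unfold ini jn
  refine List.map_congr_left fun i hi => ?_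
  have : i < m := lt_of_lt_of_le (List.mem_range.1 hi) h
  simp [this]

theorem map_ini_snd (y c : ℕ → ℕ) (m s : ℕ) (h : s ≤ m) :
    (List.range s).map (fun i => ((ini (jn y c) m).getD i 0).unpair.2) = ini c s := by
  unfold ini jn
  refine List.map_congr_left fun i hi => ?_
  have : i < m := lt_of_lt_of_le (List.mem_range.1 hi) h
  simp [this]

theorem Q1_iff (cA : Code) (y w g : ℕ → ℕ) (p m : ℕ) (δ : List ℕ) (hp : p < m) :
    Q1 cA (Nat.pair p (ec δ), m, ini (jn y (jn w g)) m) ↔
      ∃ s < m + 1, ev cA m (Nat.pair (g p) (ec (ini y s))) = true := by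
  have h1 : ((ini (jn y (jn w g)) m).getD p 0).unpair.2.unpair.2 = g p := by
    have := xf_ini_agree (jn y (jn w g)) m p hp
    unfold xf at this
    rw [this]
    simp [jn]
  unfold Q1
  simp only [Nat.unpair_pair, h1]
  refine exists_congr fun s => and_congr_right fun hs => ?_
  rw [map_ini_fst y _ m s (by omega)]

theorem Q2_iff (y c : ℕ → ℕ) (p m : ℕ) (δ : List ℕ) :
    Q2 (Nat.pair p (ec δ), m, ini (jn y c) m) ↔ Ev δ c m := by
  unfold Q2 Ev
  simp only [Nat.unpair_pair, dl_ec]
  refine exists_congr fun s => and_congr_right fun hs => ?_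
  rw [map_ini_snd y _ m s (by omega)]

/-- the theorem of Posner and Robinson for relative enumerability -/
theorem pr (A : Set ℕ) (w : ℕ → ℕ) (hA : ¬ CEIn A w) :
    ∃ c d : ℕ → ℕ, LE w c ∧ ¬ LE d c ∧ ∀ y, CEIn A y → LE d (jn y c) := by
  classical
  choose F hF using exists_step hA
  let st : ℕ → (ℕ → ℕ) × ℕ × List ℕ := fun n => Nat.rec ((fun _ => 0), 0, []) (fun _ s => F s) n
  have hst : ∀ n, Step A w (st n) (st (n + 1)) := fun n => hF (st n)
  have hlt : ∀ n, (st n).2.1 < (st (n + 1)).2.1 := fun n => (hst n).2.1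
  have hge : ∀ n, n ≤ (st n).2.1 := by
    intro n
    induction n with
    | zero => exact Nat.zero_le _
    | succ n ih => exact Nat.succ_le_of_lt (lt_of_le_of_lt ih (hlt n))
  have hmono : ∀ i j, i ≤ j → (st i).2.1 ≤ (st j).2.1 := by
    intro i j hij
    induction j, hij using Nat.le_induction with
    | base => exact le_rfl
    | succ j _ ih => exact ih.trans (hlt j).le
  have hag : ∀ i j, i ≤ j → ∀ k < (st i).2.1, (st j).1 k = (st i).1 k := by
    intro i j hij
    induction j, hij using Nat.le_induction with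
    | base => exact fun k _ => rfl
    | succ j hij ih =>
      intro k hk
      rw [← ih k hk]
      exact (hst j).1 k (lt_of_lt_of_le hk (hmono i j hij))
  let g : ℕ → ℕ := fun i => (st (i + 1)).1 i
  have hg : ∀ n, ∀ k < (st n).2.1, g k = (st n).1 k := by
    intro n k hk
    change (st (k + 1)).1 k = (st n).1 k
    rcases le_total (k + 1) n with h | h
    · exact (hag (k + 1) n h k (lt_of_lt_of_le (Nat.lt_succ_self k) (hge (k + 1)))).symm
    · exact hag n (k + 1) h k hk
  let d : ℕ → ℕ := fun n => (st (n + 1)).2.2.getD n 0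
  have hv : ∀ n, ∃ v, (st (n + 1)).2.2 = (st n).2.2 ++ [v] := by
    intro n
    rcases (hst n).2.2 with h | h
    · exact ⟨0, h.2.2.1⟩
    · exact ⟨1, h.2.1⟩
  have hδ : ∀ n, (st n).2.2 = ini d n := by
    intro n
    induction n with
    | zero => rfl
    | succ n ih =>
      obtain ⟨v, hv⟩ := hv n
      have h1 : d n = v := by
        change (st (n + 1)).2.2.getD n 0 = v
        rw [hv, ih]
        simp [ini_length]
      rw [hv, ih, ini_succ, h1]
  have hδl : ∀ n, (st n).2.2.length = n := fun n => by rw [hδ, ini_length]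
  have hgag : ∀ n, ∀ k < (st n).2.1, (jn w (st n).1) k = (jn w g) k := by
    intro n k hk
    unfold jn
    rw [hg n k hk]
  refine ⟨jn w g, d, le_jn_left _ _, ?_, ?_⟩
  · intro hd
    obtain ⟨e, he⟩ := ceIn_iff.1 (le_iff_segs.1 hd)
    set n := Encodable.encode e with hn
    have hcd : cd (st n).2.2 = e := by
      unfold cd
      rw [hδl, hn]
      exact Denumerable.ofNat_encode e
    rcases (hst n).2.2 with h | h
    · have h1 : ec ((st n).2.2 ++ [0]) ∈ segs d := by
        rw [← h.2.2.1]
        exact ⟨n + 1, congrArg ec (hδ (n + 1))⟩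
      rw [he, ← hcd] at h1
      refine h.2.2.2 g ?_ h1
      intro i hi
      rw [← h.2.1] at hi
      exact hg (n + 1) i hi
    · have h1 : ec ((st n).2.2 ++ [0]) ∈ segs d := by
        rw [he, ← hcd]
        exact (h.2.2.1.congr (hgag (n + 1))).mem
      obtain ⟨s, hs⟩ := h1
      have h2 : (st n).2.2 ++ [0] = ini d s := by
        have := congrArg dl hs
        rwa [dl_ec, dl_ec] at this
      have h3 : s = n + 1 := by
        have := congrArg List.length h2
        rw [ini_length, List.length_append, hδl] at this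
        exact this.symm
      rw [h3, ← hδ, h.2.1] at h2
      have h4 := List.append_cancel_left h2
      exact absurd h4 (by decide)
  · intro y hy
    obtain ⟨cA, hcA⟩ := ceIn_iff.1 hy
    set f := jn y (jn w g) with hf
    have hd1 : Primrec fun v : ℕ => v.unpair.1 := Primrec.fst.comp Primrec.unpair
    have hd2 : Primrec fun v : ℕ => v.unpair.2 := Primrec.snd.comp Primrec.unpair
    obtain ⟨p, hp1, hp2⟩ := leastSearch
      (fun v => decide (v.1.unpair.1 < v.2.1) && (decide (Q1 cA v) || decide (Q2 v)))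
      (by
        refine Primrec.and.comp ?_ (Primrec.or.comp (primrec_Q1 cA).decide primrec_Q2.decide)
        exact (PrimrecRel.decide Primrec.nat_lt).comp (hd1.comp Primrec.fst)
          (Primrec.fst.comp Primrec.snd))
      (fun v => cond (decide (Q1 cA v)) (Nat.pair (v.1.unpair.1 + 1) (ec (dl v.1.unpair.2 ++ [0])))
        (Nat.pair v.2.1 (ec (dl v.1.unpair.2 ++ [1]))))
      (by
        have hδ : Primrec fun v : ℕ × ℕ × List ℕ => dl v.1.unpair.2 :=
          primrec_dl.comp (hd2.comp Primrec.fst)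
        refine Primrec.cond (primrec_Q1 cA).decide ?_ ?_
        · exact Primrec₂.natPair.comp (Primrec.succ.comp (hd1.comp Primrec.fst))
            (primrec_ec.comp (Primrec.list_append.comp hδ (Primrec.const [0])))
        · exact Primrec₂.natPair.comp (Primrec.fst.comp Primrec.snd)
            (primrec_ec.comp (Primrec.list_append.comp hδ (Primrec.const [1]))))
      f
    let s : ℕ → ℕ := fun n => Nat.pair (st n).2.1 (ec (st n).2.2)
    have hs : ∀ n, p (s n) = Part.some (s (n + 1)) := by
      intro n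
      have hgp : g (st n).2.1 = (st (n + 1)).1 (st n).2.1 := hg (n + 1) _ (hlt n)
      rcases (hst n).2.2 with h | h
      · -- enumerated in `A`
        have hQ2 : ∀ m, ¬ Q2 (s n, m, ini f m) := by
          intro m hm
          have h1 := ((Q2_iff y (jn w g) _ m _).1 hm).mem
          refine h.2.2.2 g ?_ h1
          intro i hi
          rw [← h.2.1] at hi
          exact hg (n + 1) i hi
        have hex : ∃ m, (st n).2.1 < m ∧ Q1 cA (s n, m, ini f m) := by
          have h1 : g (st n).2.1 ∈ WC cA y := by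
            rw [← hcA, hgp]
            exact h.1
          obtain ⟨s1, hs1⟩ := h1
          obtain ⟨t, ht⟩ := (dom_iff_ev _ _).1 hs1
          refine ⟨s1 + t + (st n).2.1 + 1, by omega, ?_⟩
          refine (Q1_iff cA y w g _ _ _ (by omega)).2 ⟨s1, by omega, ev_mono (by omega) ht⟩
        have hT := Nat.find_spec hex
        rw [hp2 (s n) (Nat.find hex)]
        · congr 1
          simp only [hT.2, decide_true, cond_true, s, Nat.unpair_pair, dl_ec]
          rw [h.2.1, h.2.2.1]
        · simp only [hT.2, decide_true, Bool.true_or, Bool.and_true, decide_eq_true_eq, s,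
            Nat.unpair_pair]
          exact hT.1
        · intro m hm
          have h1 := Nat.find_min hex hm
          simp only [hQ2 m, decide_false, Bool.or_false]
          rw [← Bool.not_eq_true, Bool.and_eq_true, decide_eq_true_eq, decide_eq_true_eq]
          simp only [s, Nat.unpair_pair]
          exact h1
      · -- evidence
        have hQ1 : ∀ m, (st n).2.1 < m → ¬ Q1 cA (s n, m, ini f m) := by
          intro m hm0 hm
          obtain ⟨s1, -, hs1⟩ := (Q1_iff cA y w g _ m _ hm0).1 hm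
          have h1 : g (st n).2.1 ∈ A := by
            rw [hcA]
            exact ⟨s1, (dom_iff_ev _ _).2 ⟨m, hs1⟩⟩
          rw [hgp] at h1
          exact h.1 h1
        have hQ2 : Q2 (s n, (st (n + 1)).2.1, ini f (st (n + 1)).2.1) :=
          (Q2_iff y (jn w g) _ _ _).2 (h.2.2.1.congr (hgag (n + 1)))
        rw [hp2 (s n) (st (n + 1)).2.1]
        · congr 1
          simp only [hQ1 _ (hlt n), decide_false, cond_false, s, Nat.unpair_pair, dl_ec]
          rw [h.2.1]
        · simp only [hQ2, decide_true, Bool.or_true, Bool.and_true, decide_eq_true_eq, s,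
            Nat.unpair_pair]
          exact hlt n
        · intro m hm
          rw [← Bool.not_eq_true, Bool.and_eq_true, decide_eq_true_eq, Bool.or_eq_true,
            decide_eq_true_eq, decide_eq_true_eq]
          simp only [s, Nat.unpair_pair]
          rintro ⟨h1, h2⟩
          rcases h2 with h2 | h2
          · exact hQ1 m h1 h2
          · refine h.2.2.2 m h1 hm (((Q2_iff y (jn w g) _ m _).1 h2).congr ?_)
            intro i hi
            exact (hgag (n + 1) i (lt_trans hi hm)).symm
    have hrs : RT f s := iterate hp1 s hs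
    have hlast : Nat.Primrec (fun v : ℕ => (dl v.unpair.2.unpair.2).getD v.unpair.1 0) := by
      refine Primrec.nat_iff.1 ?_
      exact (Primrec.list_getD 0).comp (primrec_dl.comp (hd2.comp hd2)) hd1
    have hfin := rt_comp (rt_prim (w := f) hlast) (rt_pair (rt_prim (Primrec.nat_iff.1 Primrec.id))
      (rt_comp hrs (rt_prim (Primrec.nat_iff.1 Primrec.succ))))
    rw [le_iff]
    have e : (fun n => (dl (Nat.pair (id n) (s (Nat.succ n))).unpair.2.unpair.2).getD
        (Nat.pair (id n) (s (Nat.succ n))).unpair.1 0) = d := by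
      funext n
      simp only [Nat.unpair_pair, s, dl_ec, id]
      rfl
    rw [← e]
    exact hfin

end Pool.Agent.Helper19.MWF
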