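import Pool.Agent.Helper19.MWF.PR
import Pool.Agent.Helper69.MWF.Stmts

set_option autoImplicit false

namespace Pool.Agent.Helper69.MWF

theorem st_PR19 : ST_PR := fun A w hA => Pool.Agent.Helper19.MWF.pr A w hA

end Pool.Agent.Helper69.MWF
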