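import Pool.Agent.Helper95.MW.Cat

/-!
# Relative computability: least search and iteration
-/

set_option autoImplicit false

namespace Pool.Agent.Helper19.MWF

open Nat.Partrec Pool.Agent.Helper95.MW

theorem leastSearch (ρ : ℕ × ℕ × List ℕ → Bool) (hρ : Primrec ρ) (out : ℕ × ℕ × List ℕ → ℕ)
    (hout : Primrec out) (w : ℕ → ℕ) :
    ∃ p : ℕ →. ℕ, Nat.RecursiveIn {(PFun.lift w : ℕ →. ℕ)} p ∧
      ∀ n T, ρ (n, T, ini w T) = true → (∀ T' < T, ρ (n, T', ini w T') = false) →
        p n = Part.some (out (n, T, ini w T)) := by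
  have hd1 : Primrec fun v : ℕ => v.unpair.1 := Primrec.fst.comp Primrec.unpair
  have hd2 : Primrec fun v : ℕ => v.unpair.2 := Primrec.snd.comp Primrec.unpair
  have hG : Nat.Primrec (fun v : ℕ => cond (ρ (v.unpair.1.unpair.1, v.unpair.1.unpair.2,
      dl v.unpair.2)) 0 1) := by
    refine Primrec.nat_iff.1 ?_
    refine Primrec.cond (hρ.comp ?_) (Primrec.const 0) (Primrec.const 1)
    exact Primrec.pair (hd1.comp hd1) (Primrec.pair (hd2.comp hd1) (primrec_dl.comp hd2))
  set G : ℕ → ℕ := fun v : ℕ => cond (ρ (v.unpair.1.unpair.1, v.unpair.1.unpair.2,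
      dl v.unpair.2)) 0 1 with hGdef
  have hO : Nat.Primrec (fun v : ℕ => out (v.unpair.1.unpair.1, v.unpair.1.unpair.2,
      dl v.unpair.2)) := by
    refine Primrec.nat_iff.1 (hout.comp ?_)
    exact Primrec.pair (hd1.comp hd1) (Primrec.pair (hd2.comp hd1) (primrec_dl.comp hd2))
  set O : ℕ → ℕ := fun v : ℕ => out (v.unpair.1.unpair.1, v.unpair.1.unpair.2,
      dl v.unpair.2) with hOdef
  have hid : RT w (fun v => v) := rt_prim (Primrec.nat_iff.1 Primrec.id)
  have hg : RT w (fun v => G (Nat.pair v (ec (ini w v.unpair.2)))) :=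
    rt_comp (rt_prim hG) (rt_pair hid (rt_comp (rt_ini w) rt_right))
  have ho : RT w (fun v => O (Nat.pair v (ec (ini w v.unpair.2)))) :=
    rt_comp (rt_prim hO) (rt_pair hid (rt_comp (rt_ini w) rt_right))
  have h1 := Nat.RecursiveIn.rfind hg
  have h2 := Nat.RecursiveIn.comp ho (Nat.RecursiveIn.pair hid h1)
  refine ⟨_, h2, ?_⟩
  intro n T hT hT'
  have key : ∀ m : ℕ, G (Nat.pair (Nat.pair n m) (ec (ini w m))) =
      cond (ρ (n, m, ini w m)) 0 1 := by
    intro m
    simp only [hGdef, Nat.unpair_pair, dl_ec]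
  have h3 : (Nat.rfind fun m => (fun m => decide (m = 0)) <$>
      (PFun.lift (fun v => G (Nat.pair v (ec (ini w v.unpair.2)))) : ℕ →. ℕ) (Nat.pair n m)) =
      Part.some T := by
    rw [Part.eq_some_iff, Nat.mem_rfind]
    simp only [PFun.lift, Part.map_eq_map, Part.map_some, Part.mem_some_iff, Nat.unpair_pair, key]
    refine ⟨?_, ?_⟩
    · rw [hT]; rfl
    · intro m hm
      rw [hT' m hm]; rfl
  have h4 : (((Nat.pair <$> (PFun.lift (fun v : ℕ => v) : ℕ →. ℕ) n <*>
      (Nat.rfind fun m => (fun m => decide (m = 0)) <$>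
      (PFun.lift (fun v => G (Nat.pair v (ec (ini w v.unpair.2)))) : ℕ →. ℕ) (Nat.pair n m))) >>=
      (PFun.lift (fun v => O (Nat.pair v (ec (ini w v.unpair.2)))) : ℕ →. ℕ))) =
      Part.some (out (n, T, ini w T)) := by
    rw [h3]
    simp only [PFun.lift, Seq.seq, Part.map_eq_map, Part.map_some, Part.bind_eq_bind,
      Part.bind_some, Nat.unpair_pair, hOdef, dl_ec]
  exact h4

theorem iterate {w : ℕ → ℕ} {p : ℕ →. ℕ} (hp : Nat.RecursiveIn {(PFun.lift w : ℕ →. ℕ)} p)
    (s : ℕ → ℕ) (hs : ∀ n, p (s n) = Part.some (s (n + 1))) : RT w s := by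
  have h1 : RT w (fun _ => s 0) := rt_prim (Primrec.nat_iff.1 (Primrec.const _))
  have h2 := Nat.RecursiveIn.comp hp (rt_comp (w := w) rt_right rt_right)
  have h3 := Nat.RecursiveIn.prec h1 h2
  have h4 : RT w (fun q => s q.unpair.2) := by
    refine h3.of_eq fun q => ?_
    simp only [PFun.lift]
    generalize q.unpair.1 = a
    generalize q.unpair.2 = m
    induction m with
    | zero => rfl
    | succ m ih =>
      change (Nat.rec _ _ m : Part ℕ).bind _ = _
      rw [ih, Part.bind_some]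
      simp only [Nat.unpair_pair, Part.bind_eq_bind, Part.bind_some]
      exact hs m
  have h5 : Nat.Primrec (fun s : ℕ => Nat.pair 0 s) :=
    Primrec.nat_iff.1 (Primrec₂.natPair.comp (Primrec.const 0) Primrec.id)
  have h6 := rt_comp h4 (rt_prim h5)
  simpa only [Nat.unpair_pair] using h6

end Pool.Agent.Helper19.MWF
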